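import Pool.Agent.N728.QG.Def
import Pool.Agent.N756.QL.STA

set_option autoImplicit false

/-! Project QG (helper728), stage A for a bounded function (helper434). -/

namespace Pool.Agent.N434.QG

open Finset Pool.Agent.N728.QL Pool.Agent.N728.QG

noncomputable section

/-- finitely many conditions with three parameters -/
lemma uniform3 {ι : Type} (S : Finset ι) (Q : ι → ℕ → ℝ → ℕ → Prop)
    (hmono : ∀ s q q' η η' b b', q ∣ q' → η' ≤ η → b ≤ b' → Q s q η b → Q s q' η' b')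
    (h : ∀ s ∈ S, ∃ q : ℕ, 1 ≤ q ∧ ∃ η : ℝ, 0 < η ∧ ∃ b : ℕ, Q s q η b) :
    ∃ q : ℕ, 1 ≤ q ∧ ∃ η : ℝ, 0 < η ∧ ∃ b : ℕ, ∀ s ∈ S, Q s q η b := by
  classical
  induction S using Finset.induction_on with
  | empty => exact ⟨1, le_refl 1, 1, one_pos, 0, fun s hs => absurd hs (notMem_empty s)⟩
  | insert s S hs ih =>
    obtain ⟨q1, hq1, η1, h1, b1, r1⟩ := ih fun t ht => h t (mem_insert_of_mem ht)
    obtain ⟨q2, hq2, η2, h2, b2, r2⟩ := h s (mem_insert_self s S)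
    refine ⟨q1 * q2, Nat.mul_pos hq1 hq2, min η1 η2, lt_min h1 h2, max b1 b2, fun t ht => ?_⟩
    rcases mem_insert.1 ht with rfl | ht
    · exact hmono _ _ _ _ _ _ _ (Dvd.intro_left _ rfl) (min_le_right _ _) (le_max_right _ _) r2
    · exact hmono _ _ _ _ _ _ _ (Dvd.intro _ rfl) (min_le_left _ _) (le_max_left _ _) (r1 t ht)

/-- the test function -/
def ph (G : Polynomial ℤ) (T : ℕ) (F : ℤ → ℝ) (u v : ℕ) : ℝ :=
  if 1 ≤ u ∧ u ≤ T then F ((v : ℤ) - G.eval (u : ℤ)) else 0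

lemma ph_le {G : Polynomial ℤ} {T : ℕ} {F : ℤ → ℝ} (hF : ∀ b, |F b| ≤ 1) (u v : ℕ) : |ph G T F u v| ≤ 1 := by
  unfold ph
  split_ifs
  · exact hF _
  · rw [abs_zero]
    exact zero_le_one

lemma ph_zero {G : Polynomial ℤ} {K B T : ℕ} {F : ℤ → ℝ} (hR : Rge G K B T) (hF : Adm5 F B) (u v : ℕ)
    (hv : K * B < v) : ph G T F u v = 0 := by
  unfold ph
  split_ifs with hu
  · apply hF.2
    have h1 := (hR u hu.1 hu.2).2
    have h2 : (K : ℤ) * B < v := by exact_mod_cast hv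
    intro h
    have h3 : (0 : ℤ) ≤ (K : ℤ) * B := by positivity
    linarith [h.1, h.2]
  · rfl

/-- `ρ ^ (j + 1) ≤ 2 M` for the windows of the divisors of `M` -/
lemma rho_le {ρ : ℝ} {M j : ℕ} (hρ1 : 1 < ρ) (hρ2 : ρ ≤ 2) (hM : 1 ≤ M) (hj : j ∈ Wn ρ M) :
    ρ ^ (j + 1) ≤ 2 * M := by
  unfold Wn at hj
  rw [mem_image] at hj
  obtain ⟨m, hm, hjw⟩ := hj
  have hmM : m ∣ M := (Nat.mem_divisors.1 hm).1
  have hlogρ : 0 < Real.log ρ := Real.log_pos hρ1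
  have hm1 : 1 ≤ m := Nat.pos_of_dvd_of_pos hmM (by omega)
  have hmr : (1 : ℝ) ≤ m := by exact_mod_cast hm1
  unfold jw at hjw
  have h0 : 0 ≤ Real.log m / Real.log ρ := div_nonneg (Real.log_nonneg hmr) hlogρ.le
  have h1 := Nat.floor_le h0
  rw [hjw] at h1
  rw [le_div_iff₀ hlogρ] at h1
  have hρ0 : 0 < ρ ^ j := by positivity
  have h3 : ρ ^ j ≤ m := by
    have h3 : Real.log (ρ ^ j) ≤ Real.log m := by rw [Real.log_pow]; exact h1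
    exact (Real.log_le_log_iff hρ0 (by linarith)).1 h3
  have h4 : (m : ℝ) ≤ M := by exact_mod_cast Nat.le_of_dvd (by omega) hmM
  rw [pow_succ]
  nlinarith

/-- the off-diagonal bound, in one window -/
def SPAt (G : Polynomial ℤ) (K : ℕ) (ε η : ℝ) (w y M0 B H : ℕ) (F : ℤ → ℝ) : Prop :=
  ∀ X Y M m m' : ℕ, M ∣ PP w y → M ≤ M0 → m ∣ M → m' ∣ M → m ≠ m' → (H : ℝ) ≤ η * (X : ℝ) ^ G.natDegree →
  B ≤ X ^ (G.natDegree + 2) → Y ≤ 2 * K * B →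
  (∀ x : ℕ, 1 ≤ x → x ≤ X → 0 ≤ (B : ℤ) + G.eval ((m : ℤ) * x) ∧ 0 ≤ (B : ℤ) + G.eval ((m' : ℤ) * x) ∧
    5 * (B : ℤ) + G.eval ((m : ℤ) * x) ≤ ((M / m : ℕ) : ℤ) * Y ∧
    5 * (B : ℤ) + G.eval ((m' : ℤ) * x) ≤ ((M / m' : ℕ) : ℤ) * Y) →
  |∑ x ∈ Icc 1 X, ∑ t ∈ Icc 1 Y, rg w y x * rg w y t * (1 : ℝ) *
      F (((M / m : ℕ) : ℤ) * t - G.eval ((m : ℤ) * x)) * F (((M / m' : ℕ) : ℤ) * t - G.eval ((m' : ℤ) * x))| ≤
    ε * ((X : ℝ) * Y)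

/-- the ranges needed for one window -/
lemma win {G : Polynomial ℤ} {K B T M0 M j : ℕ} {ρ : ℝ}
    (hK : 1 ≤ K) (hM1 : 1 ≤ M) (hρ1 : 1 < ρ)
    (hR : Rge G K B T) (hBM : 2 * M0 ≤ B)
    (hr7 : ∀ m ∈ Dv ρ M j, K * B ≤ M / m * ⌊((K * B : ℕ) : ℝ) * ρ ^ (j + 1) / M⌋₊ + M0)
    {m : ℕ} (hm : m ∈ Dv ρ M j) :
    ∀ x : ℕ, 1 ≤ x → x ≤ ⌊(T : ℝ) / ρ ^ (j + 1)⌋₊ → 0 ≤ (B : ℤ) + G.eval ((m : ℤ) * x) ∧
      5 * (B : ℤ) + G.eval ((m : ℤ) * x) ≤ ((M / m : ℕ) : ℤ) * ⌊((K * B : ℕ) : ℝ) * ρ ^ (j + 1) / M⌋₊ := by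
  intro x hx1 hx2
  have hmx : m * x ≤ T := Pool.Agent.N756.QL.mx_le hρ1 hm (mem_Icc.2 ⟨hx1, hx2⟩)
  have hmd : m ∣ M := (Nat.mem_divisors.1 (Pool.Agent.N756.QL.mem_Dv.1 hm).1).1
  have hm1 : 1 ≤ m := Nat.pos_of_dvd_of_pos hmd hM1
  have hmx1 : 1 ≤ m * x := Nat.mul_pos hm1 hx1
  have h := hR (m * x) hmx1 hmx
  rw [Nat.cast_mul] at h
  obtain ⟨h1, h2⟩ := h
  have h3 := hr7 m hm
  have h3' : (K : ℤ) * B ≤ ((M / m : ℕ) : ℤ) * ⌊((K * B : ℕ) : ℝ) * ρ ^ (j + 1) / M⌋₊ + M0 := by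
    exact_mod_cast h3
  have hBM' : 2 * (M0 : ℤ) ≤ B := by exact_mod_cast hBM
  have hB0 : (0 : ℤ) ≤ B := Int.natCast_nonneg B
  have hKB : (B : ℤ) ≤ (K : ℤ) * B := by
    have : (1 : ℤ) ≤ K := by exact_mod_cast hK
    nlinarith
  constructor
  · linarith
  · linarith

/-- the off-diagonal terms of one pair -/
lemma off_le {G : Polynomial ℤ} {K B T M0 M j w y H : ℕ} {ρ ε η : ℝ} {F : ℤ → ℝ}
    (hK : 1 ≤ K) (hM : M ∣ PP w y) (hMM : M ≤ M0) (hρ1 : 1 < ρ) (hρ2 : ρ ≤ 2) (hj : j ∈ Wn ρ M)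
    (hR : Rge G K B T) (hBM : 2 * M0 ≤ B)
    (hr3 : T ≤ 4 * M0 * ⌊(T : ℝ) / ρ ^ (j + 1)⌋₊)
    (hr7 : ∀ m ∈ Dv ρ M j, K * B ≤ M / m * ⌊((K * B : ℕ) : ℝ) * ρ ^ (j + 1) / M⌋₊ + M0)
    (hT : B ≤ T ^ (G.natDegree + 1)) (hBb : ((4 * M0) ^ (G.natDegree + 2)) ^ (G.natDegree + 1) ≤ B)
    (hη : 0 < η) (hH : (H : ℝ) ≤ η / (4 * M0) ^ G.natDegree * (T : ℝ) ^ G.natDegree)
    (hSP : SPAt G K ε η w y M0 B H F) {m m' : ℕ} (hm : m ∈ Dv ρ M j) (hm' : m' ∈ Dv ρ M j) (hne : m ≠ m') :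
    |∑ x ∈ Icc 1 ⌊(T : ℝ) / ρ ^ (j + 1)⌋₊, ∑ t ∈ Icc 1 ⌊((K * B : ℕ) : ℝ) * ρ ^ (j + 1) / M⌋₊,
          rg w y x * rg w y t * (1 : ℝ) * (ph G T F (m * x) (M / m * t) * ph G T F (m' * x) (M / m' * t))| ≤
      ε * ((⌊(T : ℝ) / ρ ^ (j + 1)⌋₊ : ℝ) * ⌊((K * B : ℕ) : ℝ) * ρ ^ (j + 1) / M⌋₊) := by
  have hM1 : 1 ≤ M := Nat.pos_of_dvd_of_pos hM (PP_pos w y)
  have hM01 : 1 ≤ M0 := hM1.trans hMM
  have hmd : m ∣ M := (Nat.mem_divisors.1 (Pool.Agent.N756.QL.mem_Dv.1 hm).1).1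
  have hmd' : m' ∣ M := (Nat.mem_divisors.1 (Pool.Agent.N756.QL.mem_Dv.1 hm').1).1
  have hm1 : 1 ≤ m := Nat.pos_of_dvd_of_pos hmd hM1
  have hm1' : 1 ≤ m' := Nat.pos_of_dvd_of_pos hmd' hM1
  have w1 := win hK hM1 hρ1 hR hBM hr7 hm
  have w2 := win hK hM1 hρ1 hR hBM hr7 hm'
  have hρM := rho_le hρ1 hρ2 hM1 hj
  set X := ⌊(T : ℝ) / ρ ^ (j + 1)⌋₊ with hX
  set Y := ⌊((K * B : ℕ) : ℝ) * ρ ^ (j + 1) / M⌋₊ with hY
  have hM0r : (1 : ℝ) ≤ M0 := by exact_mod_cast hM01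
  have hMr : (1 : ℝ) ≤ M := by exact_mod_cast hM1
  have hr3' : (T : ℝ) ≤ 4 * M0 * X := by exact_mod_cast hr3
  have a1 : (H : ℝ) ≤ η * (X : ℝ) ^ G.natDegree := by
    refine hH.trans ?_
    calc η / (4 * M0) ^ G.natDegree * (T : ℝ) ^ G.natDegree ≤
          η / (4 * M0) ^ G.natDegree * (4 * M0 * X) ^ G.natDegree :=
          mul_le_mul_of_nonneg_left (pow_le_pow_left₀ (by positivity) hr3' _) (by positivity)
      _ = η * (X : ℝ) ^ G.natDegree := by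
          rw [mul_pow (4 * (M0 : ℝ)) (X : ℝ), ← mul_assoc, div_mul_cancel₀ _ (by positivity)]
  have a2 : B ≤ X ^ (G.natDegree + 2) := by
    have b1 : (4 * M0) ^ (G.natDegree + 2) ≤ T := by
      have : ((4 * M0) ^ (G.natDegree + 2)) ^ (G.natDegree + 1) ≤ T ^ (G.natDegree + 1) := hBb.trans hT
      exact le_of_pow_le_pow_left₀ (by omega) (Nat.zero_le _) this
    have b2 : (4 * M0) ^ (G.natDegree + 1) ≤ X := by
      have : 4 * M0 * (4 * M0) ^ (G.natDegree + 1) ≤ 4 * M0 * X := by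
        calc 4 * M0 * (4 * M0) ^ (G.natDegree + 1) = (4 * M0) ^ (G.natDegree + 2) := by ring
          _ ≤ T := b1
          _ ≤ _ := hr3
      exact Nat.le_of_mul_le_mul_left this (by omega)
    calc B ≤ T ^ (G.natDegree + 1) := hT
      _ ≤ (4 * M0 * X) ^ (G.natDegree + 1) := Nat.pow_le_pow_left hr3 _
      _ = (4 * M0) ^ (G.natDegree + 1) * X ^ (G.natDegree + 1) := mul_pow _ _ _
      _ ≤ X * X ^ (G.natDegree + 1) := Nat.mul_le_mul_right _ b2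
      _ = X ^ (G.natDegree + 2) := by ring
  have a3 : Y ≤ 2 * K * B := by
    have h1 : (Y : ℝ) ≤ ((K * B : ℕ) : ℝ) * ρ ^ (j + 1) / M := Nat.floor_le (by positivity)
    have h2 : ((K * B : ℕ) : ℝ) * ρ ^ (j + 1) / M ≤ 2 * K * B := by
      rw [div_le_iff₀ (by positivity)]
      push_cast
      calc (K : ℝ) * B * ρ ^ (j + 1) ≤ (K : ℝ) * B * (2 * M) :=
            mul_le_mul_of_nonneg_left hρM (by positivity)
        _ = _ := by ring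
    exact_mod_cast h1.trans h2
  have key := hSP X Y M m m' hM hMM hmd hmd' hne a1 a2 a3 (fun x hx1 hx2 =>
    ⟨(w1 x hx1 hx2).1, (w2 x hx1 hx2).1, (w1 x hx1 hx2).2, (w2 x hx1 hx2).2⟩)
  have e : ∑ x ∈ Icc 1 X, ∑ t ∈ Icc 1 Y,
          rg w y x * rg w y t * (1 : ℝ) * (ph G T F (m * x) (M / m * t) * ph G T F (m' * x) (M / m' * t)) =
      ∑ x ∈ Icc 1 X, ∑ t ∈ Icc 1 Y, rg w y x * rg w y t * (1 : ℝ) *
      F (((M / m : ℕ) : ℤ) * t - G.eval ((m : ℤ) * x)) * F (((M / m' : ℕ) : ℤ) * t - G.eval ((m' : ℤ) * x)) := by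
    refine sum_congr rfl fun x hx => sum_congr rfl fun t _ => ?_
    have hx1 := (mem_Icc.1 hx).1
    have c1 : 1 ≤ m * x ∧ m * x ≤ T := ⟨Nat.mul_pos hm1 hx1, Pool.Agent.N756.QL.mx_le hρ1 hm hx⟩
    have c2 : 1 ≤ m' * x ∧ m' * x ≤ T := ⟨Nat.mul_pos hm1' hx1, Pool.Agent.N756.QL.mx_le hρ1 hm' hx⟩
    unfold ph
    rw [if_pos c1, if_pos c2, Nat.cast_mul, Nat.cast_mul, Nat.cast_mul, Nat.cast_mul]
    ring
  rw [e]
  exact key

open Classical in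
theorem t_AL (hCORE : S_CORE) (hDIA : S_DIA) (hUU : S_UU) (hRNG : S_RNG)
    (hSP : ∀ G : Polynomial ℤ, 1 ≤ G.natDegree → Pool.Agent.N728.QG.S_SP G) (_hMER : S_MER) :
    ∀ G : Polynomial ℤ, 1 ≤ G.natDegree → S_AL G := by
  intro G hG K ε hK hε
  obtain ⟨e, he⟩ : ∃ e : ℕ, e = G.natDegree := ⟨_, rfl⟩
  have hD : 1 ≤ e + 1 := by omega
  obtain ⟨C0, hC0, kU, BU, hU⟩ := hUU (8 * (e + 1)) (by omega)
  obtain ⟨C1, hC1, kC, BC, hC⟩ := hCORE C0 kU (e + 1) K hC0 hD hK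
  obtain ⟨C2, hC2, kD, BD, hDi⟩ := hDIA C0 kU (e + 1) K hC0 hD hK
  obtain ⟨kR, BR, hRg⟩ := hRNG (e + 1) K hD hK
  -- the choice of `k`
  obtain ⟨k, hkb⟩ := exists_nat_gt (max 2 (max (6 * C1 / ε) (4 * (C1 * (C2 + 1)) / ε ^ 2)))
  have hk2r : (2 : ℝ) < k := (le_max_left _ _).trans_lt hkb
  have hkA : 6 * C1 / ε < k := ((le_max_left _ _).trans (le_max_right _ _)).trans_lt hkb
  have hkB : 4 * (C1 * (C2 + 1)) / ε ^ 2 < k := ((le_max_right _ _).trans (le_max_right _ _)).trans_lt hkb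
  have hk2 : 2 ≤ k := by exact_mod_cast hk2r.le
  have hkr : (2 : ℝ) ≤ k := hk2r.le
  have hk0 : (0 : ℝ) < k := by linarith
  obtain ⟨w, hw⟩ : ∃ w : ℕ, w = k ^ 2 := ⟨_, rfl⟩
  have hw4 : 4 ≤ w := by
    rw [hw]
    calc 4 = 2 ^ 2 := by norm_num
      _ ≤ k ^ 2 := Nat.pow_le_pow_left hk2 2
  obtain ⟨ρ, hρ⟩ : ∃ ρ : ℝ, ρ = 1 + 1 / (k : ℝ) ^ 2 := ⟨_, rfl⟩
  have hik : 0 < 1 / (k : ℝ) ^ 2 := by positivity
  have hik2 : 1 / (k : ℝ) ^ 2 ≤ 1 := by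
    rw [div_le_one (by positivity)]
    exact one_le_pow₀ (by linarith)
  have hρ1 : 1 < ρ := by rw [hρ]; linarith
  have hρ2 : ρ ≤ 2 := by rw [hρ]; linarith
  obtain ⟨y, hy⟩ : ∃ y : ℕ, y = ⌈Real.exp ((k : ℝ) ^ 60)⌉₊ := ⟨_, rfl⟩
  have hyl : Real.exp ((k : ℝ) ^ 60) ≤ y := by
    rw [hy]
    exact Nat.le_ceil _
  have hy0 : (0 : ℝ) < y := lt_of_lt_of_le (Real.exp_pos _) hyl
  have hk60 : (1 : ℝ) ≤ (k : ℝ) ^ 60 := one_le_pow₀ (by linarith)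
  obtain ⟨L, hL⟩ : ∃ L : ℝ, L = Real.log y := ⟨_, rfl⟩
  have hL1 : (k : ℝ) ^ 60 ≤ L := by
    rw [hL, Real.le_log_iff_exp_le hy0]
    exact hyl
  have hLone : 1 ≤ L := hk60.trans hL1
  have hwy : w ≤ y := by
    have h1 : (w : ℝ) ≤ y := by
      rw [hw]
      push_cast
      calc (k : ℝ) ^ 2 ≤ (k : ℝ) ^ 60 := pow_le_pow_right₀ (by linarith) (by norm_num)
        _ ≤ Real.exp ((k : ℝ) ^ 60) := by
            have := Real.add_one_le_exp ((k : ℝ) ^ 60)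
            linarith
        _ ≤ y := hyl
    exact_mod_cast h1
  obtain ⟨M0, hM01, hM0⟩ := Pool.Agent.N756.QL.choose_M0 (CB := C1) hk2 hLone
  have hM0r : (1 : ℝ) ≤ M0 := by exact_mod_cast hM01
  -- `ε1`
  obtain ⟨S, hS⟩ : ∃ S : ℝ, S = ∑ M ∈ (PP w y).divisors, (M.divisors.card : ℝ) ^ 2 := ⟨_, rfl⟩
  have hS0 : 0 ≤ S := by
    rw [hS]
    positivity
  have hKr : (1 : ℝ) ≤ K := by exact_mod_cast hK
  obtain ⟨ε1, hε1⟩ : ∃ ε1 : ℝ, ε1 = 1 / (K * (S + 1)) := ⟨_, rfl⟩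
  have hε1p : 0 < ε1 := by
    rw [hε1]
    positivity
  -- the uniform `q0` and `η`
  obtain ⟨q0, hq0, η, hη, BS, hBS⟩ := uniform3
    (((Icc 1 M0) ×ˢ ((Icc 1 M0) ×ˢ (Icc 1 M0))).filter (fun s : ℕ × ℕ × ℕ =>
      s.1 ∣ PP w y ∧ s.2.1 ∣ s.1 ∧ s.2.2 ∣ s.1 ∧ s.2.1 ≠ s.2.2))
    (fun s q0 η b => ∀ B : ℕ, b ≤ B →
      ∀ (q X Y H : ℕ) (F ψ : ℤ → ℝ), q0 ∣ q → 1 ≤ q → q ∣ H → 1 ≤ H →
      (H : ℝ) ≤ η * (X : ℝ) ^ G.natDegree → H ≤ B →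
      B ≤ X ^ (G.natDegree + 2) → Y ≤ 2 * K * B → (∀ n, |ψ n| ≤ 1) → (∀ n, ψ (n + (PP w y : ℕ)) = ψ n) →
      (∀ x : ℕ, 1 ≤ x → x ≤ X → 0 ≤ (B : ℤ) + G.eval ((s.2.1 : ℤ) * x) ∧ 0 ≤ (B : ℤ) + G.eval ((s.2.2 : ℤ) * x) ∧
        5 * (B : ℤ) + G.eval ((s.2.1 : ℤ) * x) ≤ ((s.1 / s.2.1 : ℕ) : ℤ) * Y ∧
        5 * (B : ℤ) + G.eval ((s.2.2 : ℤ) * x) ≤ ((s.1 / s.2.2 : ℕ) : ℤ) * Y) →
      Adm5 F B → ZeroMean F q H →
      |∑ x ∈ Icc 1 X, ∑ t ∈ Icc 1 Y, rg w y x * rg w y t * ψ ((s.1 : ℤ) * x * t) *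
        F (((s.1 / s.2.1 : ℕ) : ℤ) * t - G.eval ((s.2.1 : ℤ) * x)) *
        F (((s.1 / s.2.2 : ℕ) : ℤ) * t - G.eval ((s.2.2 : ℤ) * x))| ≤ ε1 * ((X : ℝ) * Y))
    (by
      intro s q q' η η' b b' g0 h1 h2 h3 B hB q1 X Y H F ψ g1 g2 g3 g4 g5 g6 g7 g8 g9 g10 g11 g12 g13
      exact h3 B (h2.trans hB) q1 X Y H F ψ (g0.trans g1) g2 g3 g4
        (g5.trans (mul_le_mul_of_nonneg_right h1 (by positivity))) g6 g7 g8 g9 g10 g11 g12 g13)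
    (by
      rintro ⟨M, m, m'⟩ hs
      simp only [mem_filter, mem_product, mem_Icc] at hs
      obtain ⟨-, hMP, hmM, hmM', hmm⟩ := hs
      exact hSP G hG (PP w y) w y M m m' (2 * K) ε1 hε1p (PP_pos w y) dvd_rfl hMP hmM hmM' hmm)
  refine ⟨q0, hq0, η / (4 * M0) ^ G.natDegree, by positivity, fun q hq1 hqq => ?_⟩
  refine ⟨BU + BC + BD + BR + BS + K + 2 * M0 + M0 ^ (kC + kD + kR) + y ^ (kC + kD) +
    ((4 * M0) ^ (e + 2)) ^ (e + 1) + ⌈Real.exp ((k : ℝ) ^ 2)⌉₊, ?_⟩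
  intro B hB T H F E hT hT2 hR hqH hH1 hHη hHB hF hZ hE
  have p1 := Nat.zero_le (M0 ^ (kC + kD + kR))
  have p2 := Nat.zero_le (y ^ (kC + kD))
  have p3 := Nat.zero_le (((4 * M0) ^ (e + 2)) ^ (e + 1))
  have p4 := Nat.zero_le (⌈Real.exp ((k : ℝ) ^ 2)⌉₊)
  generalize hg1 : M0 ^ (kC + kD + kR) = e1 at hB p1
  generalize hg2 : y ^ (kC + kD) = e2 at hB p2
  generalize hg3 : ((4 * M0) ^ (e + 2)) ^ (e + 1) = e3 at hB p3
  generalize hg4 : ⌈Real.exp ((k : ℝ) ^ 2)⌉₊ = e4 at hB p4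
  have hMB : M0 ^ (kC + kD + kR) ≤ B := by rw [hg1]; omega
  have hyB : y ^ (kC + kD) ≤ B := by rw [hg2]; omega
  have hBb : ((4 * M0) ^ (e + 2)) ^ (e + 1) ≤ B := by rw [hg3]; omega
  have hEB : Real.exp ((k : ℝ) ^ 2) ≤ B := by
    refine (Nat.le_ceil _).trans ?_
    rw [hg4]
    exact_mod_cast (by omega : e4 ≤ B)
  have hBp : (0 : ℝ) < B := lt_of_lt_of_le (Real.exp_pos _) hEB
  have hB1 : 1 ≤ B := by exact_mod_cast (by exact_mod_cast hBp : 0 < B)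
  have hpk : ∀ n k' l : ℕ, 1 ≤ n → k' ≤ l → n ^ l ≤ B → n ^ k' ≤ B := fun n k' l h1 h2 h3 =>
    (Nat.pow_le_pow_right h1 h2).trans h3
  have hy1 : 1 ≤ y := by omega
  have hρB : 1 + 1 / Real.log B ≤ ρ := by
    rw [hρ]
    have h1 : (k : ℝ) ^ 2 ≤ Real.log B := by
      rw [Real.le_log_iff_exp_le hBp]
      exact hEB
    have h2 := one_div_le_one_div_of_le (by positivity) h1
    linarith
  rw [← he] at hT
  have hTD : T ≤ B ^ (e + 1) := by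
    have h1 : T ≤ T ^ G.natDegree := Nat.le_self_pow (by omega) T
    calc T ≤ T ^ G.natDegree := h1
      _ ≤ K * B := hT2
      _ ≤ B * B := Nat.mul_le_mul_right _ (by omega)
      _ = B ^ 2 := by ring
      _ ≤ B ^ (e + 1) := Nat.pow_le_pow_right hB1 (by omega)
  have hUB := hU B (by omega)
  have hph1 := ph_le (G := G) (T := T) hF.1
  have hph2 := ph_zero hR hF
  have main := hC B (by omega) (fun _ => 1) E hE hUB.1 hUB.2 T w y M0 ρ (ph G T F) hT hTD (by omega) hwy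
    (hpk y kC _ hy1 (by omega) hyB) hM01 (hpk M0 kC _ hM01 (by omega) hMB) hρB hρ2 hph1 (fun u v _ h => hph2 u v h)
  have dia := hDi B (by omega) (fun _ => 1) (fun _ => zero_le_one) hUB.2 T w y M0 ρ hT hTD (by omega) hwy
    (hpk y kD _ hy1 (by omega) hyB) hM01 (hpk M0 kD _ hM01 (by omega) hMB) hρ1 hρ2
  have hSF : SE G K E B T F = ∑ u ∈ Icc 1 T, ∑ v ∈ Icc 1 (K * B), ph G T F u v * E (u * v) := by
    unfold SE
    refine sum_congr rfl fun u hu => sum_congr rfl fun v _ => ?_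
    unfold ph
    rw [if_pos (mem_Icc.1 hu)]
  rw [hSF]
  refine main.trans ?_
  have hTB0 : 0 ≤ (T : ℝ) * B := by positivity
  -- the off-diagonal terms
  have hSPAt : SPAt G K ε1 η w y M0 B H F := by
    intro X Y M m m' h1 h2 h3 h4 h5 h6 h7 h8 h9
    have hMpos : 1 ≤ M := Nat.pos_of_dvd_of_pos h1 (PP_pos w y)
    exact hBS (M, m, m') (by
      simp only [mem_filter, mem_product, mem_Icc]
      exact ⟨⟨⟨hMpos, h2⟩, ⟨Nat.pos_of_dvd_of_pos h3 hMpos, (Nat.le_of_dvd hMpos h3).trans h2⟩,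
        ⟨Nat.pos_of_dvd_of_pos h4 hMpos, (Nat.le_of_dvd hMpos h4).trans h2⟩⟩, h1, h3, h4, h5⟩) B (by omega)
      q X Y H F (fun _ => 1) hqq hq1 hqH hH1 h6 hHB h7 h8 (fun _ => by rw [abs_one]) (fun _ => rfl) h9 hF hZ
  have hBM : 2 * M0 ≤ B := by omega
  have hDDle : ∀ M ∈ (PP w y).divisors.filter (fun M => M ≤ M0), ∀ j ∈ Wn ρ M,
      DD (ph G T F) (fun _ => 1) w y ρ T (K * B) M j ≤
        (∑ _m ∈ Dv ρ M j, AA (fun _ => 1) w y ρ T (K * B) M j) +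
          ((Dv ρ M j).card : ℝ) ^ 2 * (ε1 * ((T : ℝ) * (K * B))) := by
    intro M hM j hj
    rw [mem_filter] at hM
    have hMd : M ∣ PP w y := Nat.dvd_of_mem_divisors hM.1
    have hM1 : 1 ≤ M := Nat.pos_of_dvd_of_pos hMd (PP_pos w y)
    obtain ⟨-, -, r3, -, -, r6, r7⟩ := hRg B (by omega) T M0 M j ρ hT hTD
      (hpk M0 kR _ hM01 (by omega) hMB) hM1 hM.2 hρ1 hρ2 hj
    refine (Pool.Agent.N756.QL.dd_expand hph1 (fun _ => zero_le_one) w y ρ T (K * B) M j).trans ?_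
    rw [sum_const, nsmul_eq_mul]
    refine add_le_add le_rfl ?_
    have hb : ε1 * ((⌊(T : ℝ) / ρ ^ (j + 1)⌋₊ : ℝ) * ⌊((K * B : ℕ) : ℝ) * ρ ^ (j + 1) / M⌋₊) ≤
        ε1 * ((T : ℝ) * (K * B)) := by
      refine mul_le_mul_of_nonneg_left (r6.trans ?_) hε1p.le
      exact div_le_self (by positivity) (by exact_mod_cast hM1)
    have hc0 : 0 ≤ ε1 * ((T : ℝ) * (K * B)) := by positivity
    calc _ ≤ ∑ m ∈ Dv ρ M j, ∑ m' ∈ (Dv ρ M j).erase m, ε1 * ((T : ℝ) * (K * B)) := by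
          refine sum_le_sum fun m hm => sum_le_sum fun m' hm' => ?_
          have hm'' := mem_erase.1 hm'
          refine le_trans ?_ hb
          exact off_le hK hMd hM.2 hρ1 hρ2 hj hR hBM r3 (fun m hm => (r7 m hm).1) (by rw [← he]; exact hT)
            (by rw [← he]; exact hBb) hη hHη hSPAt hm hm''.2 (Ne.symm hm''.1)
      _ ≤ ∑ m ∈ Dv ρ M j, ((Dv ρ M j).card : ℝ) * (ε1 * ((T : ℝ) * (K * B))) := by
          refine sum_le_sum fun m _ => ?_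
          rw [sum_const, nsmul_eq_mul]
          refine mul_le_mul_of_nonneg_right ?_ hc0
          exact_mod_cast card_le_card (erase_subset _ _)
      _ = _ := by
          rw [sum_const, nsmul_eq_mul]
          ring
  have hDD : ∑ M ∈ (PP w y).divisors.filter (fun M => M ≤ M0), ∑ j ∈ Wn ρ M,
      DD (ph G T F) (fun _ => 1) w y ρ T (K * B) M j ≤ (C2 + 1) * ((T : ℝ) * B) := by
    have s1 : ∑ M ∈ (PP w y).divisors.filter (fun M => M ≤ M0), ∑ j ∈ Wn ρ M,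
        ((Dv ρ M j).card : ℝ) ^ 2 * (ε1 * ((T : ℝ) * (K * B))) ≤ (T : ℝ) * B := by
      have s2 : ∑ M ∈ (PP w y).divisors.filter (fun M => M ≤ M0), ∑ j ∈ Wn ρ M,
          ((Dv ρ M j).card : ℝ) ^ 2 ≤ S := by
        rw [hS]
        calc _ ≤ ∑ M ∈ (PP w y).divisors.filter (fun M => M ≤ M0), (M.divisors.card : ℝ) ^ 2 :=
              sum_le_sum fun M _ => Pool.Agent.N756.QL.sum_card_Dv_sq ρ M
          _ ≤ _ := sum_le_sum_of_subset_of_nonneg (filter_subset _ _) (fun _ _ _ => by positivity)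
      calc _ = (∑ M ∈ (PP w y).divisors.filter (fun M => M ≤ M0), ∑ j ∈ Wn ρ M,
            ((Dv ρ M j).card : ℝ) ^ 2) * (ε1 * ((T : ℝ) * (K * B))) := by
            simp only [sum_mul]
        _ ≤ S * (ε1 * ((T : ℝ) * (K * B))) := mul_le_mul_of_nonneg_right s2 (by positivity)
        _ = S / (S + 1) * ((T : ℝ) * B) := by
            rw [hε1]
            field_simp
        _ ≤ 1 * ((T : ℝ) * B) := by
            refine mul_le_mul_of_nonneg_right ?_ hTB0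
            rw [div_le_one (by positivity)]
            linarith
        _ = _ := one_mul _
    calc _ ≤ ∑ M ∈ (PP w y).divisors.filter (fun M => M ≤ M0), ∑ j ∈ Wn ρ M,
          ((∑ _m ∈ Dv ρ M j, AA (fun _ => 1) w y ρ T (K * B) M j) +
            ((Dv ρ M j).card : ℝ) ^ 2 * (ε1 * ((T : ℝ) * (K * B)))) :=
          sum_le_sum fun M hM => sum_le_sum fun j hj => hDDle M hM j hj
      _ ≤ C2 * ((T : ℝ) * B) + (T : ℝ) * B := by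
          simp only [sum_add_distrib]
          exact add_le_add dia s1
      _ = _ := by ring
  -- the numbers
  have A1 : 1 / (w : ℝ) + (ρ - 1) + Real.log y ^ C1 * Real.exp (-(Real.log M0 / (2 * Real.log y))) ≤
      3 * (1 / (k : ℝ) ^ 2) := by
    rw [← hL, hρ, hw]
    push_cast
    linarith
  have A2 : (ρ - 1) ^ (-(1 / 2) : ℝ) * Real.log w ^ (3 / 5 : ℝ) * Real.log y ^ (-(1 / 12) : ℝ) ≤
      1 / (k : ℝ) ^ 3 := by
    have h1 := Pool.Agent.N756.QL.ek_num hk2 hL1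
    rw [← hL, hρ, hw]
    exact h1
  have hC10 : 0 < C1 := by linarith
  have hC20 : 0 < C2 := by linarith
  have B1 : C1 * ((T : ℝ) * B) *
      (1 / w + (ρ - 1) + Real.log y ^ C1 * Real.exp (-(Real.log M0 / (2 * Real.log y)))) ≤
      ε / 2 * ((T : ℝ) * B) := by
    have h1 : C1 * (3 * (1 / (k : ℝ) ^ 2)) ≤ ε / 2 := by
      have h2 : 1 / (k : ℝ) ^ 2 ≤ 1 / k := by
        apply one_div_le_one_div_of_le hk0
        nlinarith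
      have h3 : 6 * C1 < k * ε := by
        rw [div_lt_iff₀ hε] at hkA
        exact hkA
      have h4 : C1 * (3 * (1 / (k : ℝ))) ≤ ε / 2 := by
        have : C1 * (3 * (1 / (k : ℝ))) = (3 * C1) / k := by ring
        rw [this, div_le_iff₀ hk0]
        linarith
      have h5 : C1 * (3 * (1 / (k : ℝ) ^ 2)) ≤ C1 * (3 * (1 / (k : ℝ))) := by
        apply mul_le_mul_of_nonneg_left _ hC10.le
        linarith
      linarith
    calc _ ≤ C1 * ((T : ℝ) * B) * (3 * (1 / (k : ℝ) ^ 2)) := mul_le_mul_of_nonneg_left A1 (by positivity)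
      _ = C1 * (3 * (1 / (k : ℝ) ^ 2)) * ((T : ℝ) * B) := by ring
      _ ≤ _ := mul_le_mul_of_nonneg_right h1 hTB0
  have B2 : √(C1 * ((T : ℝ) * B) *
        ((ρ - 1) ^ (-(1 / 2) : ℝ) * Real.log w ^ (3 / 5 : ℝ) * Real.log y ^ (-(1 / 12) : ℝ))) *
      √(∑ M ∈ (PP w y).divisors.filter (fun M => M ≤ M0), ∑ j ∈ Wn ρ M,
        DD (ph G T F) (fun _ => 1) w y ρ T (K * B) M j) ≤ ε / 2 * ((T : ℝ) * B) := by
    calc _ ≤ √(C1 * ((T : ℝ) * B) * (1 / (k : ℝ) ^ 3)) * √((C2 + 1) * ((T : ℝ) * B)) :=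
          mul_le_mul (Real.sqrt_le_sqrt (mul_le_mul_of_nonneg_left A2 (by positivity))) (Real.sqrt_le_sqrt hDD)
            (Real.sqrt_nonneg _) (Real.sqrt_nonneg _)
      _ = √(C1 * (C2 + 1) / (k : ℝ) ^ 3 * ((T : ℝ) * B) ^ 2) := by
          rw [← Real.sqrt_mul (by positivity)]
          congr 1
          ring
      _ = √(C1 * (C2 + 1) / (k : ℝ) ^ 3) * ((T : ℝ) * B) := by
          rw [Real.sqrt_mul (by positivity), Real.sqrt_sq hTB0]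
      _ ≤ _ := by
          refine mul_le_mul_of_nonneg_right ?_ hTB0
          rw [Real.sqrt_le_left (by positivity)]
          have h3 : 4 * (C1 * (C2 + 1)) < k * ε ^ 2 := by
            rw [div_lt_iff₀ (by positivity)] at hkB
            exact hkB
          rw [div_le_iff₀ (by positivity)]
          have h4 : (k : ℝ) ≤ (k : ℝ) ^ 3 := le_self_pow₀ (by linarith) (by norm_num)
          have h5 : (k : ℝ) * ε ^ 2 ≤ (k : ℝ) ^ 3 * ε ^ 2 := mul_le_mul_of_nonneg_right h4 (by positivity)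
          nlinarith
  calc _ ≤ ε / 2 * ((T : ℝ) * B) + ε / 2 * ((T : ℝ) * B) := add_le_add B1 B2
    _ = ε * ((B : ℝ) * T) := by ring

end

end Pool.Agent.N434.QG
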